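import Mathlib
import Pool.Agent.H31.KReg

set_option autoImplicit false

namespace Pool.Agent.Results.MP_4e5b66_nt.Full

/-- `b_m = 1`: every maximal block of consecutive `0`s in the binary expansion of `m` has even
length. Such a block occupies the bit positions `i, …, j-1`, where bit `j` is `1` and either
`i = 0` or bit `i-1` is `1`. (For `m = 0` the condition is vacuous, so `b_0 = 1`.) -/
def BS (m : ℕ) : Prop :=
  ∀ i j : ℕ, i < j → (i = 0 ∨ m.testBit (i - 1) = true) → m.testBit j = true →
    (∀ l, i ≤ l → l < j → m.testBit l = false) → Even (j - i)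

/-- `h_n`: increasing enumeration of the zeros of the Baum-Sweet sequence. -/
noncomputable def h (n : ℕ) : ℕ := Nat.nth (fun m => ¬ BS m) n

/-- `k`-regular: the `ℤ`-span of the `k`-kernel is finitely generated. -/
def KRegular (k : ℕ) (a : ℕ → ℤ) : Prop :=
  (Submodule.span ℤ {f : ℕ → ℤ | ∃ e r : ℕ, r < k ^ e ∧ f = fun n => a (k ^ e * n + r)}).FG

lemma tb1 (n l : ℕ) : (2 * n + 1).testBit (l + 1) = n.testBit l := by
  rw [Nat.testBit_add_one, show (2 * n + 1) / 2 = n by omega]

lemma tb2 (n l : ℕ) : (4 * n).testBit (l + 2) = n.testBit l := by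
  rw [show l + 2 = l + 1 + 1 from rfl, Nat.testBit_add_one, Nat.testBit_add_one,
    show 4 * n / 2 / 2 = n by omega]

lemma bs_odd (n : ℕ) (hn : BS (2 * n + 1)) : BS n := by
  intro i j hij hi hj hl
  have := hn (i + 1) (j + 1) (by omega) (Or.inr (by
    rcases Nat.eq_zero_or_pos i with rfl | hi0
    · simp
    · rcases hi with hi | hi
      · omega
      · rw [show i + 1 - 1 = (i - 1) + 1 by omega, tb1]; exact hi)) (by rw [tb1]; exact hj) (by
    intro l h1 h2
    rw [show l = (l - 1) + 1 by omega, tb1]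
    exact hl _ (by omega) (by omega))
  rwa [show j + 1 - (i + 1) = j - i by omega] at this

lemma bs_four (n : ℕ) (hn : BS (4 * n)) : BS n := by
  intro i j hij hi hj hl
  rcases Nat.eq_zero_or_pos i with rfl | hi0
  · have := hn 0 (j + 2) (by omega) (Or.inl rfl) (by rw [tb2]; exact hj) (by
      intro l _ h2
      by_cases h0 : l = 0
      · subst h0; simp; omega
      by_cases h1 : l = 1
      · subst h1
        rw [show 1 = 0 + 1 from rfl, Nat.testBit_add_one]; simp; omega
      rw [show l = (l - 2) + 2 by omega, tb2]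
      exact hl _ (by omega) (by omega))
    rw [Nat.sub_zero] at this ⊢
    exact (Nat.even_add.mp this).mpr (by decide)
  · have := hn (i + 2) (j + 2) (by omega) (Or.inr (by
      rcases hi with hi | hi
      · omega
      · rw [show i + 2 - 1 = (i - 1) + 2 by omega, tb2]; exact hi)) (by rw [tb2]; exact hj) (by
      intro l h1 h2
      rw [show l = (l - 2) + 2 by omega, tb2]
      exact hl _ (by omega) (by omega))
    rwa [show j + 2 - (i + 2) = j - i by omega] at this

lemma not_bs_two (m : ℕ) (hm : m % 4 = 2) : ¬ BS m := by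
  intro hn
  have := hn 0 1 (by omega) (Or.inl rfl) (by
    rw [show 1 = 0 + 1 from rfl, Nat.testBit_add_one]; simp; omega) (by
    intro l _ h2
    have : l = 0 := by omega
    subst this
    simp; omega)
  exact absurd this (by decide)

lemma not_bs_gap (r m : ℕ) (h1 : 10 * 4 ^ r ≤ m) (h2 : m < 12 * 4 ^ r) : ¬ BS m := by
  intro hn
  have e4 : 2 ^ (2 * r + 1) = 2 * 4 ^ r := by rw [pow_succ, pow_mul]; norm_num [mul_comm]
  have hd : m / 2 ^ (2 * r + 1) = 5 := by
    rw [e4]
    exact Nat.div_eq_of_lt_le (by omega) (by omega)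
  have hb : ∀ l, m.testBit (l + (2 * r + 1)) = Nat.testBit 5 l := fun l => by
    rw [← Nat.testBit_div_two_pow, hd]
  have := hn (1 + (2 * r + 1)) (2 + (2 * r + 1)) (by omega) (Or.inr (by
    rw [show 1 + (2 * r + 1) - 1 = 0 + (2 * r + 1) by omega, hb]; decide))
    (by rw [hb]; decide) (by
      intro l h1 h2
      rw [show l = 1 + (2 * r + 1) by omega, hb]; decide)
  rw [show 2 + (2 * r + 1) - (1 + (2 * r + 1)) = 1 by omega] at this
  exact absurd this (by decide)

lemma bs_top (r : ℕ) : BS (12 * 4 ^ r) := by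
  have e4 : 12 * 4 ^ r = 3 * 2 ^ (2 * r + 2) := by rw [pow_add, pow_mul]; norm_num; ring
  have hb : ∀ l, (12 * 4 ^ r).testBit l = true ↔ (l = 2 * r + 2 ∨ l = 2 * r + 3) := by
    intro l
    rw [e4, Nat.testBit_mul_two_pow]
    simp only [Bool.and_eq_true, decide_eq_true_eq]
    constructor
    · rintro ⟨h1, h2⟩
      by_contra hh
      have h3 : 3 < 2 ^ (l - (2 * r + 2)) :=
        lt_of_lt_of_le (by norm_num : 3 < 2 ^ 2) (Nat.pow_le_pow_right (by norm_num) (by omega))
      rw [Nat.testBit_lt_two_pow h3] at h2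
      exact absurd h2 (by decide)
    · rintro (rfl | rfl)
      · exact ⟨le_rfl, by rw [Nat.sub_self]; decide⟩
      · exact ⟨by omega, by rw [show 2 * r + 3 - (2 * r + 2) = 1 by omega]; decide⟩
  intro i j hij hi hj hl
  rcases (hb j).mp hj with rfl | rfl
  · rcases hi with rfl | hi
    · exact ⟨r + 1, by omega⟩
    · have := (hb _).mp hi
      omega
  · have h1 := hl (2 * r + 2) (by omega) (by omega)
    rw [(hb _).mpr (Or.inl rfl)] at h1
    exact absurd h1 (by decide)

open Classical in
lemma count_two (x : ℕ) : Nat.count BS (2 * x) ≤ Nat.count BS x + Nat.count (fun n => BS (2 * n)) x := by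
  induction x with
  | zero => simp
  | succ x ih =>
    rw [show 2 * (x + 1) = 2 * x + 1 + 1 by ring]
    simp only [Nat.count_succ]
    have := bs_odd x
    split_ifs <;> first | omega | (exfalso; tauto)

open Classical in
lemma count_even (x : ℕ) : Nat.count (fun n => BS (2 * n)) (2 * x) ≤ Nat.count BS x := by
  induction x with
  | zero => simp
  | succ x ih =>
    rw [show 2 * (x + 1) = 2 * x + 1 + 1 by ring]
    simp only [Nat.count_succ]
    have h1 := bs_four x
    have h2 := not_bs_two (2 * (2 * x + 1)) (by omega)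
    rw [show 2 * (2 * x) = 4 * x by ring]
    split_ifs <;> first | omega | (exfalso; tauto)

open Classical in
lemma count_four (x : ℕ) : Nat.count BS (4 * x) ≤ 3 * Nat.count BS x := by
  have h1 := count_two (2 * x)
  have h2 := count_two x
  have h3 := count_even x
  have h4 : Nat.count (fun n => BS (2 * n)) x ≤ Nat.count (fun n => BS (2 * n)) (2 * x) :=
    Nat.count_monotone _ (by omega)
  rw [show 2 * (2 * x) = 4 * x by ring] at h1
  omega

open Classical in
lemma count_sum (x : ℕ) : Nat.count (fun m => ¬ BS m) x + Nat.count BS x = x := by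
  induction x with
  | zero => simp
  | succ x ih =>
    simp only [Nat.count_succ]
    split_ifs <;> omega

lemma inf_zero : (Set.ofPred fun m => ¬ BS m).Infinite := by
  refine Set.infinite_of_injective_forall_mem (f := fun n : ℕ => 4 * n + 2)
    (fun a b hab => by simp only at hab; omega) (fun n => ?_)
  exact not_bs_two _ (by omega)

lemma h_gap (n : ℕ) : h n < h (n + 1) ∧ h (n + 1) ≤ h n + 4 := by
  refine ⟨Nat.nth_strictMono inf_zero (by omega), ?_⟩
  by_contra hh
  push Not at hh
  have := Nat.le_nth_of_lt_nth_succ (p := fun m => ¬ BS m) (k := n)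
    (a := 4 * ((h n + 2) / 4) + 2) (by unfold h at hh ⊢; omega) (not_bs_two _ (by omega))
  unfold h at hh this
  omega

lemma mod_iff (n : ℕ) : (((h (n + 1) : ℤ) : ZMod 5) ≠ ((h n : ℤ) : ZMod 5) + 1) ↔
    h (n + 1) ≠ h n + 1 := by
  obtain ⟨h1, h2⟩ := h_gap n
  obtain ⟨c, hc⟩ : ∃ c, h (n + 1) = h n + 1 + c := ⟨h (n + 1) - h n - 1, by omega⟩
  have hc3 : c ≤ 3 := by omega
  rw [hc]
  push_cast
  rw [ne_eq, add_eq_left, ne_eq, add_eq_left]
  interval_cases c <;> decide

open Classical in
lemma count_back (r i : ℕ) (hi : i ≤ 4 ^ r) :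
    Nat.count (fun m => ¬ BS m) (12 * 4 ^ r - 1 - i) + i =
      Nat.count (fun m => ¬ BS m) (12 * 4 ^ r - 1) := by
  induction i with
  | zero => simp
  | succ i ih =>
    have hp : 0 < 4 ^ r := by positivity
    rw [← ih (by omega), show 12 * 4 ^ r - 1 - i = (12 * 4 ^ r - 1 - (i + 1)) + 1 by omega,
      Nat.count_succ, if_pos (not_bs_gap r _ (by omega) (by omega))]
    omega

theorem result (k : ℕ) (hk : 2 ≤ k) : ¬ KRegular k (fun n => (h n : ℤ)) := by
  classical
  intro hreg
  have h1 := H31.KReg.Y_fin k hk (fun n => ((h n : ℤ) : ZMod 5)) 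
    (H31.KReg.ker_fin k (fun n => (h n : ℤ)) hreg)
  have hp : ∀ r, 0 < 4 ^ r := fun r => by positivity
  refine H31.KReg.main k hk _ h1 (fun r => Nat.count (fun m => ¬ BS m) (12 * 4 ^ r - 1))
    (fun r => Nat.count BS (12 * 4 ^ r)) ?_ ?_ ?_ ?_ ?_
  · intro r
    have := hp r
    simp only [Set.mem_ofPred_eq]
    rw [mod_iff]
    have e1 : h (Nat.count (fun m => ¬ BS m) (12 * 4 ^ r - 1)) = 12 * 4 ^ r - 1 :=
      Nat.nth_count (not_bs_gap r _ (by omega) (by omega))
    rw [e1, show 12 * 4 ^ r - 1 + 1 = 12 * 4 ^ r by omega]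
    intro e2
    have := Nat.nth_mem_of_infinite inf_zero
      (Nat.count (fun m => ¬ BS m) (12 * 4 ^ r - 1) + 1)
    unfold h at e2
    rw [e2] at this
    exact this (bs_top r)
  · intro r n hn1 hn2
    have := hp r
    simp only [Set.mem_ofPred_eq]
    rw [mod_iff, not_not]
    obtain ⟨i, hi⟩ : ∃ i, Nat.count (fun m => ¬ BS m) (12 * 4 ^ r - 1) = n + (i + 1) :=
      ⟨Nat.count (fun m => ¬ BS m) (12 * 4 ^ r - 1) - n - 1, by omega⟩
    have c1 := count_back r (i + 1) (by omega)
    have c2 := count_back r i (by omega)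
    have e1 : h n = 12 * 4 ^ r - 1 - (i + 1) := by
      rw [show n = Nat.count (fun m => ¬ BS m) (12 * 4 ^ r - 1 - (i + 1)) by omega]
      exact Nat.nth_count (not_bs_gap r _ (by omega) (by omega))
    have e2 : h (n + 1) = 12 * 4 ^ r - 1 - i := by
      rw [show n + 1 = Nat.count (fun m => ¬ BS m) (12 * 4 ^ r - 1 - i) by omega]
      exact Nat.nth_count (not_bs_gap r _ (by omega) (by omega))
    omega
  · intro r
    have := hp r
    have c1 := count_sum (12 * 4 ^ r - 1)
    have c2 : Nat.count BS (12 * 4 ^ r) = Nat.count BS (12 * 4 ^ r - 1) := by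
      conv_lhs => rw [show 12 * 4 ^ r = (12 * 4 ^ r - 1) + 1 by omega]
      rw [Nat.count_succ, if_neg (not_bs_gap r _ (by omega) (by omega)), add_zero]
    omega
  · intro r
    rw [show 12 * 4 ^ (r + 1) = 4 * (12 * 4 ^ r) by ring]
    exact count_four _
  · intro r
    induction r with
    | zero => omega
    | succ r ih =>
      have := hp r
      have c1 : Nat.count BS (12 * 4 ^ r + 1) ≤ Nat.count BS (12 * 4 ^ (r + 1)) :=
        Nat.count_monotone _ (by rw [pow_succ]; omega)
      rw [Nat.count_succ, if_pos (bs_top r)] at c1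
      omega

end Pool.Agent.Results.MP_4e5b66_nt.Full
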